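import Pool.Agent.H3RD.W830.RD.Stm

open scoped Classical
open Filter Topology Pool.Agent.W830.RD

namespace Pool.Agent.W298.RD.Asym

theorem ev_aux (B δ : ℝ) (hB : 0 ≤ B) (hδ : 0 < δ) :
    ∀ᶠ x : ℝ in atTop, 3 * B * Real.sqrt x * Real.log x ≤ (δ / 2) * x := by
  have h := (isLittleO_log_rpow_atTop (r := (1 / 2 : ℝ)) (by norm_num)).def
    (c := (δ / 2) / (3 * B + 1)) (by positivity)
  filter_upwards [h, eventually_ge_atTop (1 : ℝ)] with x hx hx1
  rw [← Real.sqrt_eq_rpow, Real.norm_of_nonneg (Real.log_nonneg hx1),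
    Real.norm_of_nonneg (Real.sqrt_nonneg x)] at hx
  have hs : 0 ≤ Real.sqrt x := Real.sqrt_nonneg x
  have hss : Real.sqrt x * Real.sqrt x = x := Real.mul_self_sqrt (by linarith)
  have h3 : 0 < 3 * B + 1 := by linarith
  have h1 : 3 * B * Real.sqrt x * Real.log x ≤
      (3 * B + 1) * Real.sqrt x * ((δ / 2) / (3 * B + 1) * Real.sqrt x) := by
    have hl : 0 ≤ Real.log x := Real.log_nonneg hx1
    have h4 : 3 * B * Real.sqrt x ≤ (3 * B + 1) * Real.sqrt x := by nlinarith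
    exact mul_le_mul h4 hx hl (by positivity)
  have h2 : (3 * B + 1) * Real.sqrt x * ((δ / 2) / (3 * B + 1) * Real.sqrt x) =
      (δ / 2) * x := by
    have : (3 * B + 1) * Real.sqrt x * ((δ / 2) / (3 * B + 1) * Real.sqrt x) =
      (δ / 2) * (Real.sqrt x * Real.sqrt x) := by
      field_simp
    rw [this, hss]
  linarith

theorem bound (p δ : ℝ) (A c : ℕ) (hp0 : 0 < p) (hp1 : p < 1) (hδ : 0 < δ) (L : ℝ)
    (hL : L = Real.log (1 / (1 - p))) (hL0 : 0 < L) (x : ℝ) (hx1 : 1 ≤ x)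
    (hxC : 18 * (c : ℝ) + A * (1 / Real.sqrt L + 2) ≤ x)
    (hx2 : 3 * ((A : ℝ) * (1 / Real.sqrt L + 2)) * Real.sqrt x * Real.log x ≤ (δ / 2) * x) :
    Real.exp x * (((2 * (c * (⌈x⌉₊ + 1) ^ 2) : ℕ) : ℝ) +
      A * (⌈Real.sqrt (x / L)⌉₊ + 1)) ^
      (A * (⌈Real.sqrt (x / L)⌉₊ + 1)) *
    (1 - p) ^ ⌈(1 + δ) * (x / L)⌉₊ ≤ Real.exp (-(δ / 2) * x) := by
  have hx0 : 0 < x := by linarith
  have hsL : 0 < Real.sqrt L := Real.sqrt_pos.mpr hL0
  have hsx : 1 ≤ Real.sqrt x := by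
    rw [show (1 : ℝ) = Real.sqrt 1 by simp]; exact Real.sqrt_le_sqrt hx1
  have hssx : Real.sqrt x * Real.sqrt x = x := Real.mul_self_sqrt hx0.le
  have hsq : Real.sqrt (x / L) = (1 / Real.sqrt L) * Real.sqrt x := by
    rw [Real.sqrt_div hx0.le]; ring
  have hK : ((⌈Real.sqrt (x / L)⌉₊ : ℝ) + 1) ≤ (1 / Real.sqrt L + 2) * Real.sqrt x := by
    have h := (Nat.ceil_lt_add_one (Real.sqrt_nonneg (x / L))).le
    rw [hsq] at h ⊢
    have : (1 / Real.sqrt L + 2) * Real.sqrt x =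
      1 / Real.sqrt L * Real.sqrt x + 2 * Real.sqrt x := by ring
    linarith
  have hsxx : Real.sqrt x ≤ x := by nlinarith
  have hX : ((⌈x⌉₊ : ℝ) + 1) ≤ 3 * x := by
    have h := (Nat.ceil_lt_add_one hx0.le).le
    linarith
  have hA0 : (0 : ℝ) ≤ A := Nat.cast_nonneg A
  have hc0 : (0 : ℝ) ≤ c := Nat.cast_nonneg c
  have hD : 0 ≤ 1 / Real.sqrt L + 2 := by positivity
  set D := 1 / Real.sqrt L + 2 with hDdef
  set b : ℝ := (((2 * (c * (⌈x⌉₊ + 1) ^ 2) : ℕ) : ℝ) +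
      A * (⌈Real.sqrt (x / L)⌉₊ + 1)) with hb
  have hb0 : 0 ≤ b := by rw [hb]; positivity
  have hbx : b ≤ x ^ 3 := by
    have h1 : (((2 * (c * (⌈x⌉₊ + 1) ^ 2) : ℕ) : ℝ)) ≤ 18 * c * x ^ 2 := by
      push_cast
      have : ((⌈x⌉₊ : ℝ) + 1) ^ 2 ≤ (3 * x) ^ 2 := pow_le_pow_left₀ (by positivity) hX 2
      nlinarith
    have h2 : (A : ℝ) * (⌈Real.sqrt (x / L)⌉₊ + 1) ≤ A * D * x ^ 2 := by
      have h3 : D * Real.sqrt x ≤ D * x ^ 2 := by
        apply mul_le_mul_of_nonneg_left _ hD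
        nlinarith
      calc (A : ℝ) * (⌈Real.sqrt (x / L)⌉₊ + 1) ≤ A * (D * Real.sqrt x) :=
            mul_le_mul_of_nonneg_left hK hA0
        _ ≤ A * (D * x ^ 2) := mul_le_mul_of_nonneg_left h3 hA0
        _ = A * D * x ^ 2 := by ring
    calc b ≤ 18 * c * x ^ 2 + A * D * x ^ 2 := by rw [hb]; linarith
      _ = (18 * (c : ℝ) + A * D) * x ^ 2 := by ring
      _ ≤ x * x ^ 2 := mul_le_mul_of_nonneg_right hxC (by positivity)
      _ = x ^ 3 := by ring
  have hpow : b ^ (A * (⌈Real.sqrt (x / L)⌉₊ + 1)) ≤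
      Real.exp (3 * (A * D) * Real.sqrt x * Real.log x) := by
    calc b ^ (A * (⌈Real.sqrt (x / L)⌉₊ + 1)) ≤ (x ^ 3) ^ (A * (⌈Real.sqrt (x / L)⌉₊ + 1)) :=
          pow_le_pow_left₀ hb0 hbx _
      _ = Real.exp (((A * (⌈Real.sqrt (x / L)⌉₊ + 1) : ℕ) : ℝ) * (3 * Real.log x)) := by
          rw [Real.exp_nat_mul]
          congr 1
          rw [show (3 : ℝ) * Real.log x = ((3 : ℕ) : ℝ) * Real.log x by norm_num,
            Real.exp_nat_mul, Real.exp_log hx0]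
      _ ≤ Real.exp (3 * (A * D) * Real.sqrt x * Real.log x) := by
          apply Real.exp_le_exp.mpr
          push_cast
          have hl : 0 ≤ Real.log x := Real.log_nonneg hx1
          have : (A : ℝ) * (⌈Real.sqrt (x / L)⌉₊ + 1) ≤ A * (D * Real.sqrt x) :=
            mul_le_mul_of_nonneg_left hK hA0
          calc (A : ℝ) * (⌈Real.sqrt (x / L)⌉₊ + 1) * (3 * Real.log x)
              ≤ A * (D * Real.sqrt x) * (3 * Real.log x) :=
                mul_le_mul_of_nonneg_right this (by positivity)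
            _ = 3 * (A * D) * Real.sqrt x * Real.log x := by ring
  have hlast : (1 - p) ^ ⌈(1 + δ) * (x / L)⌉₊ ≤ Real.exp (-(1 + δ) * x) := by
    have h1p : 0 < 1 - p := by linarith
    have hlog : Real.log (1 - p) = -L := by
      rw [hL, one_div, Real.log_inv]; ring
    have : (1 - p) ^ ⌈(1 + δ) * (x / L)⌉₊ =
        Real.exp ((⌈(1 + δ) * (x / L)⌉₊ : ℝ) * (-L)) := by
      rw [← hlog, Real.exp_nat_mul, Real.exp_log h1p]
    rw [this]
    apply Real.exp_le_exp.mpr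
    have hc := Nat.le_ceil ((1 + δ) * (x / L))
    have h2 : (1 + δ) * (x / L) * L = (1 + δ) * x := by
      field_simp
    have h3 : (1 + δ) * (x / L) * L ≤ (⌈(1 + δ) * (x / L)⌉₊ : ℝ) * L :=
      mul_le_mul_of_nonneg_right hc hL0.le
    linarith
  calc Real.exp x * b ^ (A * (⌈Real.sqrt (x / L)⌉₊ + 1)) * (1 - p) ^ ⌈(1 + δ) * (x / L)⌉₊
      ≤ Real.exp x * Real.exp (3 * (A * D) * Real.sqrt x * Real.log x) *
        Real.exp (-(1 + δ) * x) := by
        apply mul_le_mul _ hlast (pow_nonneg (by linarith) _) (by positivity)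
        exact mul_le_mul_of_nonneg_left hpow (Real.exp_pos x).le
    _ = Real.exp (x + 3 * (A * D) * Real.sqrt x * Real.log x + -(1 + δ) * x) := by
        rw [Real.exp_add, Real.exp_add]
    _ ≤ Real.exp (-(δ / 2) * x) := by
        apply Real.exp_le_exp.mpr
        linarith

theorem main : S_ASYM := by
  intro p δ A c hp0 hp1 hδ
  obtain ⟨L, hL⟩ : ∃ L, L = Real.log (1 / (1 - p)) := ⟨_, rfl⟩
  have hL0 : 0 < L := by
    rw [hL]
    apply Real.log_pos
    rw [lt_div_iff₀ (by linarith)]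
    linarith
  rw [← hL]
  have hF : Tendsto (fun x : ℝ => Real.exp x * (((2 * (c * (⌈x⌉₊ + 1) ^ 2) : ℕ) : ℝ) +
      A * (⌈Real.sqrt (x / L)⌉₊ + 1)) ^
      (A * (⌈Real.sqrt (x / L)⌉₊ + 1)) *
    (1 - p) ^ ⌈(1 + δ) * (x / L)⌉₊) atTop (𝓝 0) := by
    have hlim : Tendsto (fun x : ℝ => Real.exp (-(δ / 2) * x)) atTop (𝓝 0) := by
      apply Real.tendsto_exp_atBot.comp
      exact tendsto_id.const_mul_atTop_of_neg (by linarith)
    refine tendsto_of_tendsto_of_tendsto_of_le_of_le' tendsto_const_nhds hlim ?_ ?_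
    · refine Eventually.of_forall fun x => ?_
      have h1p : 0 ≤ 1 - p := by linarith
      positivity
    · filter_upwards [ev_aux ((A : ℝ) * (1 / Real.sqrt L + 2)) δ (by positivity) hδ,
        eventually_ge_atTop (1 : ℝ),
        eventually_ge_atTop (18 * (c : ℝ) + A * (1 / Real.sqrt L + 2))] with x h1 h2 h3
      exact bound p δ A c hp0 hp1 hδ L hL hL0 x h2 h3 h1
  have hG := hF.comp (Real.tendsto_log_atTop.comp tendsto_natCast_atTop_atTop)
  refine hG.congr' ?_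
  filter_upwards [eventually_ge_atTop 1] with n hn
  have hn0 : (0 : ℝ) < n := by exact_mod_cast hn
  simp only [Function.comp_apply]
  rw [Real.exp_log hn0]

end Pool.Agent.W298.RD.Asym
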